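import Pool.Agent.H67.AG.T1

/-!
Row NXI of the board `gap_modules`: properties of the next step of the tower.
-/

set_option autoImplicit false

open MeasureTheory ProbabilityTheory Filter Topology Finset
open scoped Nat ENNReal

namespace Pool.Agent.H11.AG

open Pool.Agent.H67.AG

section nxi

variable {X : Type} [mX : MeasurableSpace X] [StandardBorelSpace X]

/-- transport of an almost periodic set along a map commuting with `T × T` -/
theorem nx_of_map (μ : Measure X) [IsProbabilityMeasure μ] (T : X ≃ᵐ X) (Z : SA X)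
    (S : X ≃ᵐ X) (hS : MeasurePreserving (TT S) (JJ μ Z) (JJ μ Z))
    (hE : ∀ E : Set (X × X), (TT T) ⁻¹' E = E → (TT S) ⁻¹' E = E) {A : Set X}
    (hA : NX μ T Z A) : NX μ T Z (S ⁻¹' A) := by
  refine ⟨S.measurable hA.1, fun δ hδ => ?_⟩
  obtain ⟨n, W, H, ε, hW, hH, hε, h⟩ := hA.2 δ hδ
  refine ⟨n, W, H, ε, hW, hH, hε, fun E mE iE hG => ?_⟩
  have h1 := h E mE iE hG
  have hD : MeasurableSet {q : X × X | ¬ (q.1 ∈ A ↔ q.2 ∈ A)} := by
    have e : {q : X × X | ¬ (q.1 ∈ A ↔ q.2 ∈ A)} =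
        (Prod.fst ⁻¹' A ∩ (Prod.snd ⁻¹' A)ᶜ) ∪ ((Prod.fst ⁻¹' A)ᶜ ∩ Prod.snd ⁻¹' A) := by
      ext q
      simp only [Set.mem_setOf_eq, Set.mem_union, Set.mem_inter_iff, Set.mem_preimage,
        Set.mem_compl_iff]
      tauto
    rw [e]
    exact ((measurable_fst hA.1).inter (measurable_snd hA.1).compl).union
      ((measurable_fst hA.1).compl.inter (measurable_snd hA.1))
  have e1 : E ∩ {q : X × X | ¬ (q.1 ∈ S ⁻¹' A ↔ q.2 ∈ S ⁻¹' A)} =
      (TT S) ⁻¹' (E ∩ {q : X × X | ¬ (q.1 ∈ A ↔ q.2 ∈ A)}) := by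
    rw [Set.preimage_inter, hE E iE]
    rfl
  rw [e1, hS.measureReal_preimage (mE.inter hD).nullMeasurableSet]
  exact h1

theorem iter_TT (T : X ≃ᵐ X) (n : ℕ) (q : X × X) :
    ((TT T)^[n] q).1 = T^[n] q.1 := by
  induction n generalizing q with
  | zero => rfl
  | succ n ih =>
    rw [Function.iterate_succ_apply, Function.iterate_succ_apply, ih]
    rfl

/-- the sets of `Z` are almost periodic -/
theorem nx_of_Z (h4 : T_J4) (μ : Measure X) [IsProbabilityMeasure μ] (T : X ≃ᵐ X) (Z : SA X)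
    {A : Set X} (hA : MeasurableSet[Z.1] A) : NX μ T Z A := by
  refine ⟨Z.2 A hA, fun δ hδ => ?_⟩
  refine ⟨0, 1, fun l => l.elim0, 1, one_pos, fun l => l.elim0, one_pos, fun E _ _ _ => ?_⟩
  have h0 : (JJ μ Z) (E ∩ {q | ¬ (q.1 ∈ A ↔ q.2 ∈ A)}) = 0 := by
    have h := (h4 X μ Z).2.1 A hA
    rw [ae_iff] at h
    exact measure_mono_null Set.inter_subset_right h
  have h0' : (JJ μ Z).real (E ∩ {q | ¬ (q.1 ∈ A ↔ q.2 ∈ A)}) = 0 := by
    rw [measureReal_def, h0, ENNReal.toReal_zero]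
  rw [h0']
  exact mul_nonneg hδ.le measureReal_nonneg

/-- the rational sets are almost periodic -/
theorem nx_of_inv (μ : Measure X) [IsProbabilityMeasure μ] (T : X ≃ᵐ X) (Z : SA X) {W : ℕ}
    (hW : 0 < W) {A : Set X} (hA : MeasurableSet[Inv T W] A) : NX μ T Z A := by
  have hA' : MeasurableSet A ∧ (T^[W]) ⁻¹' A = A := MeasurableSpace.measurableSet_invariants.1 hA
  obtain ⟨mA, iA⟩ := hA'
  refine ⟨mA, fun δ hδ => ?_⟩
  refine ⟨1, W, fun _ q => A.indicator (fun _ => (1 : ℝ)) q.1, 1 / 2, hW, fun _ => ⟨?_, ?_, ?_⟩,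
    by norm_num, fun E _ _ hG => ?_⟩
  · exact (measurable_const.indicator mA).comp measurable_fst
  · intro q
    by_cases hq : q.1 ∈ A
    · simp [Set.indicator_of_mem hq]
    · simp [Set.indicator_of_notMem hq]
  · intro q
    have hi : (T^[W] q.1 ∈ A) ↔ q.1 ∈ A := by
      have := Set.ext_iff.1 iA q.1
      exact this
    simp only [iter_TT]
    by_cases hq : q.1 ∈ A
    · rw [Set.indicator_of_mem hq, Set.indicator_of_mem (hi.2 hq)]
    · rw [Set.indicator_of_notMem hq, Set.indicator_of_notMem (fun hh => hq (hi.1 hh))]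
  · have h0 : (JJ μ Z) (E ∩ {q | ¬ (q.1 ∈ A ↔ q.2 ∈ A)}) = 0 := by
      have hsub : E ∩ {q | ¬ (q.1 ∈ A ↔ q.2 ∈ A)} ⊆ {q | ¬ (q ∈ E →
          Gb μ Z T 1 W (fun _ q => A.indicator (fun _ => (1 : ℝ)) q.1) q ≤ 1 / 2)} := by
        rintro q ⟨qE, qA⟩
        simp only [Set.mem_setOf_eq]
        intro hcon
        have h1 := hcon qE
        have hnn : ∀ t ∈ range W, 0 ≤ ∫ y, (A.indicator (fun _ => (1 : ℝ)) (T^[t] q.1) -
            A.indicator (fun _ => (1 : ℝ)) (T^[t] q.2)) ^ 2 ∂(kap μ Z q.1) := fun t _ =>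
          integral_nonneg fun y => sq_nonneg _
        have h2 : ∫ y, (A.indicator (fun _ => (1 : ℝ)) (T^[0] q.1) -
            A.indicator (fun _ => (1 : ℝ)) (T^[0] q.2)) ^ 2 ∂(kap μ Z q.1) ≤
            Gb μ Z T 1 W (fun _ q => A.indicator (fun _ => (1 : ℝ)) q.1) q := by
          unfold Gb
          rw [Fin.sum_univ_one]
          exact Finset.single_le_sum hnn (Finset.mem_range.2 hW)
        have h3 : ∫ y, (A.indicator (fun _ => (1 : ℝ)) (T^[0] q.1) -
            A.indicator (fun _ => (1 : ℝ)) (T^[0] q.2)) ^ 2 ∂(kap μ Z q.1) = 1 := by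
          rw [integral_const]
          simp only [Function.iterate_zero, id_eq, probReal_univ, smul_eq_mul, one_mul]
          have qA' : ¬ (q.1 ∈ A ↔ q.2 ∈ A) := qA
          by_cases h1A : q.1 ∈ A
          · have h2A : q.2 ∉ A := fun hh => qA' ⟨fun _ => hh, fun _ => h1A⟩
            rw [Set.indicator_of_mem h1A, Set.indicator_of_notMem h2A]
            norm_num
          · have h2A : q.2 ∈ A := by
              by_contra hh
              exact qA' ⟨fun h => absurd h h1A, fun h => absurd h hh⟩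
            rw [Set.indicator_of_notMem h1A, Set.indicator_of_mem h2A]
            norm_num
        rw [h3] at h2
        linarith
      exact measure_mono_null hsub (ae_iff.1 hG)
    have h0' : (JJ μ Z).real (E ∩ {q | ¬ (q.1 ∈ A ↔ q.2 ∈ A)}) = 0 := by
      rw [measureReal_def, h0, ENNReal.toReal_zero]
    rw [h0']
    exact mul_nonneg hδ.le measureReal_nonneg

end nxi

theorem pf_NXI (h4 : T_J4) (h3 : T_J3) (h : T_NXA) : T_NXI := by
  intro X mX sX μ pμ T Z erg hZ
  have hiff := h X μ T Z erg hZ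
  have hp := (h3 X μ T Z erg.toMeasurePreserving hZ).1
  have hs : MeasurePreserving (TT T.symm) (JJ μ Z) (JJ μ Z) := hp.symm (TT T)
  refine ⟨fun A hA => ⟨?_, ?_⟩, fun A hA => ?_, ?_⟩
  · exact (hiff _).2 (nx_of_map μ T Z T hp (fun E hE => hE) ((hiff A).1 hA))
  · refine (hiff _).2 (nx_of_map μ T Z T.symm hs (fun E hE => ?_) ((hiff A).1 hA))
    have e1 : (TT T.symm) ⁻¹' ((TT T) ⁻¹' E) = E := by
      ext q
      have : (TT T) ((TT T.symm) q) = q := (TT T).apply_symm_apply q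
      rw [Set.mem_preimage, Set.mem_preimage, this]
    rw [hE] at e1
    exact e1
  · exact (hiff A).2 (nx_of_Z h4 μ T Z hA)
  · exact iSup_le fun w A hA => (hiff A).2 (nx_of_inv μ T Z (Nat.factorial_pos w) hA)

end Pool.Agent.H11.AG
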