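import Pool.Agent.H38.AG.Targets

/-!
# RLP: few relations, small modulus
-/

set_option autoImplicit false

open Pool.Agent.H38.RB Pool.Agent.H38.PS Pool.Agent.H82.RD Pool.Agent.H38.AB Pool.Agent.H38.AG
open Filter

namespace Pool.Agent.H11.AG

/-- the numerical condition -/
theorem rlp_nc (q A B D H u m S P T : ℕ) (hq : 2 ≤ q) (hA : A = 64 * (P * m ^ 3 * T))
    (hB : B = 112 * (S * m ^ 2)) (hD : D ≤ 2 ^ S) (hH : H ≤ 2 ^ (2 * P * m * T)) (hu : 1 ≤ u)
    (hum : u ≤ m) (hP : 1 ≤ P) (hS : 1 ≤ S) (hT : 1 ≤ T) : NC q A B D H u := by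
  obtain ⟨α, hα⟩ : ∃ α, α = P * m ^ 3 * T := ⟨_, rfl⟩
  obtain ⟨β, hβ⟩ : ∃ β, β = S * m ^ 2 := ⟨_, rfl⟩
  rw [← hα] at hA
  rw [← hβ] at hB
  have hm1 : 1 ≤ m := hu.trans hum
  have huα : u ≤ α := by
    rw [hα]
    calc u = 1 * u ^ 1 * 1 := by ring
      _ ≤ P * m ^ 3 * T := Nat.mul_le_mul (Nat.mul_le_mul hP
        ((Nat.pow_le_pow_left hum 1).trans (Nat.pow_le_pow_right hm1 (by norm_num)))) hT
  have huβ : u ≤ β := by
    rw [hβ]
    calc u = 1 * u ^ 1 := by ring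
      _ ≤ S * m ^ 2 := Nat.mul_le_mul hS
        ((Nat.pow_le_pow_left hum 1).trans (Nat.pow_le_pow_right hm1 (by norm_num)))
  have hD2 : 2 * D ^ 2 ≤ 2 ^ (3 * S) := by
    calc 2 * D ^ 2 ≤ 2 ^ 1 * (2 ^ S) ^ 2 :=
          Nat.mul_le_mul (by norm_num) (Nat.pow_le_pow_left hD 2)
      _ = 2 ^ (1 + S * 2) := by rw [← pow_mul, ← pow_add]
      _ ≤ 2 ^ (3 * S) := Nat.pow_le_pow_right (by norm_num) (by omega)
  have h1 : ((u + 1) * (2 * D ^ 2) ^ (u + 1)) ^ A ≤ 2 ^ (7 * S * u * A) := by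
    rw [pow_mul]
    refine Nat.pow_le_pow_left ?_ A
    have e1 : u + 1 ≤ 2 ^ u := Nat.lt_two_pow_self
    calc (u + 1) * (2 * D ^ 2) ^ (u + 1) ≤ 2 ^ u * (2 ^ (3 * S)) ^ (u + 1) :=
          Nat.mul_le_mul e1 (Nat.pow_le_pow_left hD2 _)
      _ = 2 ^ (u + 3 * S * (u + 1)) := by rw [← pow_mul, ← pow_add]
      _ ≤ 2 ^ (7 * S * u) := by
          refine Nat.pow_le_pow_right (by norm_num) ?_
          have e2 : 3 * S * (u + 1) ≤ 3 * S * (2 * u) := Nat.mul_le_mul_left _ (by omega)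
          have e3 : u ≤ S * u := Nat.le_mul_of_pos_left _ (by omega)
          calc u + 3 * S * (u + 1) ≤ S * u + 3 * S * (2 * u) := Nat.add_le_add e3 e2
            _ = 7 * S * u := by ring
  have h2 : (H ^ (u + 1)) ^ B ≤ 2 ^ (4 * P * m * T * u * B) := by
    rw [pow_mul]
    refine Nat.pow_le_pow_left ?_ B
    calc H ^ (u + 1) ≤ (2 ^ (2 * P * m * T)) ^ (u + 1) := Nat.pow_le_pow_left hH _
      _ = 2 ^ (2 * P * m * T * (u + 1)) := by rw [← pow_mul]
      _ ≤ 2 ^ (4 * P * m * T * u) := by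
          refine Nat.pow_le_pow_right (by norm_num) ?_
          calc 2 * P * m * T * (u + 1) ≤ 2 * P * m * T * (2 * u) :=
                Nat.mul_le_mul_left _ (by omega)
            _ = 4 * P * m * T * u := by ring
  have h3 : (A + u).choose u ≤ 2 ^ (A + u) := Nat.choose_le_two_pow _ _
  have hM : (B * (A + u).choose u) * (((u + 1) * (2 * D ^ 2) ^ (u + 1)) ^ A *
      (H ^ (u + 1)) ^ B) < 2 ^ (B + (A + u) + (7 * S * u * A + 4 * P * m * T * u * B)) := by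
    rw [pow_add 2 (B + (A + u)), pow_add 2 B, pow_add 2 (7 * S * u * A)]
    refine Nat.mul_lt_mul_of_lt_of_le ?_ (Nat.mul_le_mul h1 h2) (by positivity)
    exact Nat.mul_lt_mul_of_lt_of_le Nat.lt_two_pow_self h3 (by positivity)
  refine lt_of_lt_of_le hM ?_
  refine le_trans ?_ (Nat.pow_le_pow_left hq _)
  refine Nat.pow_le_pow_right (by norm_num) ?_
  rw [Nat.le_div_iff_mul_le (by norm_num)]
  refine Nat.le_sub_of_add_le ?_
  rw [Nat.le_div_iff_mul_le (by omega)]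
  obtain ⟨Z, hZ⟩ : ∃ Z, Z = α * β := ⟨_, rfl⟩
  have k1 : B * u ≤ 112 * Z := by
    calc B * u ≤ 112 * β * α := by rw [hB]; exact Nat.mul_le_mul_left _ huα
      _ = 112 * Z := by rw [hZ]; ring
  have k2 : A * u ≤ 64 * Z := by
    calc A * u ≤ 64 * α * β := by rw [hA]; exact Nat.mul_le_mul_left _ huβ
      _ = 64 * Z := by rw [hZ]; ring
  have k3 : u * u ≤ Z := by
    rw [hZ]
    exact Nat.mul_le_mul huα huβ
  have k4 : 7 * S * u * A * u ≤ 448 * Z := by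
    have e1 : S * (u * u) ≤ β := by
      rw [hβ]
      refine Nat.mul_le_mul_left _ ?_
      calc u * u ≤ m * m := Nat.mul_le_mul hum hum
        _ = m ^ 2 := by ring
    calc 7 * S * u * A * u = 7 * A * (S * (u * u)) := by ring
      _ ≤ 7 * A * β := Nat.mul_le_mul_left _ e1
      _ = 448 * Z := by rw [hA, hZ]; ring
  have k5 : 4 * P * m * T * u * B * u ≤ 448 * Z := by
    have e1 : P * m * T * (u * u) ≤ α := by
      rw [hα]
      calc P * m * T * (u * u) ≤ P * m * T * (m * m) :=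
            Nat.mul_le_mul_left _ (Nat.mul_le_mul hum hum)
        _ = P * m ^ 3 * T := by ring
    calc 4 * P * m * T * u * B * u = 4 * B * (P * m * T * (u * u)) := by ring
      _ ≤ 4 * B * α := Nat.mul_le_mul_left _ e1
      _ = 448 * Z := by rw [hB, hZ]; ring
  have k6 : A * B = 7168 * Z := by
    rw [hA, hB, hZ]
    ring
  have k7 : ((B + (A + u) + (7 * S * u * A + 4 * P * m * T * u * B)) * 2 + 2 * A) * u =
      2 * (B * u) + 4 * (A * u) + 2 * (u * u) + 2 * (7 * S * u * A * u) +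
        2 * (4 * P * m * T * u * B * u) := by ring
  rw [k7, k6]
  omega

/-- the analytic part -/
theorem rlp_ev (K : ℝ) : ∃ X₀ : ℝ, 2 ≤ X₀ ∧ ∀ X : ℝ, X₀ ≤ X →
    10 ^ 10 ≤ Real.log X ∧ K / 4 * Real.log (Real.log X) ≤ Real.log X ∧
      1 ≤ Real.log (Real.log X) := by
  have h1 : ∀ᶠ y : ℝ in atTop, K / 4 * Real.log y ≤ y := by
    have h := Real.isLittleO_log_id_atTop.bound
      (show (0 : ℝ) < 1 / (|K| / 4 + 1) by positivity)
    filter_upwards [h, eventually_ge_atTop 1] with y hy hy1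
    rw [Real.norm_eq_abs, Real.norm_eq_abs, id, abs_of_nonneg (show (0 : ℝ) ≤ y by linarith),
      abs_of_nonneg (Real.log_nonneg hy1)] at hy
    have h2 : 0 < |K| / 4 + 1 := by positivity
    have h3 : (|K| / 4 + 1) * Real.log y ≤ y := by
      rw [one_div, inv_mul_eq_div, le_div_iff₀ h2] at hy
      linarith
    have h4 : K / 4 ≤ |K| / 4 + 1 := by
      have := le_abs_self K
      linarith
    exact (mul_le_mul_of_nonneg_right h4 (Real.log_nonneg hy1)).trans h3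
  have h2 : ∀ᶠ y : ℝ in atTop, 1 ≤ Real.log y := Real.tendsto_log_atTop.eventually_ge_atTop _
  have h3 := Real.tendsto_log_atTop.eventually
    ((h1.and h2).and (eventually_ge_atTop ((10 : ℝ) ^ 10)))
  obtain ⟨X₀, hX₀⟩ := eventually_atTop.1 h3
  refine ⟨max X₀ 2, le_max_right _ _, fun X hX => ?_⟩
  obtain ⟨⟨g1, g2⟩, g3⟩ := hX₀ X ((le_max_left _ _).trans hX)
  exact ⟨g3, g1, g2⟩

/-- `exp n ≤ 2 ^ (2 n)` -/
theorem exp_nat_le (n : ℕ) : Real.exp n ≤ ((2 ^ (2 * n) : ℕ) : ℝ) := by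
  have h1 : Real.exp 1 ≤ 4 := by
    have := Real.exp_one_lt_d9
    linarith
  have h2 : Real.exp n = Real.exp 1 ^ n := by
    rw [← Real.exp_nat_mul, mul_one]
  rw [h2, pow_mul]
  push_cast
  refine (pow_le_pow_left₀ (Real.exp_pos _).le h1 n).trans (le_of_eq ?_)
  norm_num

theorem nat_le_of_exp {a n : ℕ} {x : ℝ} (ha : (a : ℝ) ≤ Real.exp x) (hx : x ≤ n) :
    a ≤ 2 ^ (2 * n) := by
  have h1 := ha.trans ((Real.exp_le_exp.2 hx).trans (exp_nat_le n))
  exact_mod_cast h1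

/-- cancelling the powers of `T` -/
theorem rlp_cancel (T n r dq q B a : ℕ) (hT : 1 ≤ T) (hr : r + dq ≤ n)
    (h : (T + 1) ^ n ≤ 4 * q * ((r + 1) * B * ((r + 1) * (a * T)) ^ r)) :
    T ^ dq ≤ 4 * q * ((r + 1) * B) * ((r + 1) * a) ^ r := by
  have h1 : T ^ dq * T ^ r ≤ (4 * q * ((r + 1) * B) * ((r + 1) * a) ^ r) * T ^ r := by
    calc T ^ dq * T ^ r = T ^ (r + dq) := by rw [← pow_add, add_comm]
      _ ≤ T ^ n := Nat.pow_le_pow_right hT hr
      _ ≤ (T + 1) ^ n := Nat.pow_le_pow_left (Nat.le_succ T) n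
      _ ≤ 4 * q * ((r + 1) * B * ((r + 1) * (a * T)) ^ r) := h
      _ = (4 * q * ((r + 1) * B) * ((r + 1) * a) ^ r) * T ^ r := by
          rw [← mul_assoc (r + 1) a T, mul_pow _ T r]
          ring
  exact Nat.le_of_mul_le_mul_right h1 (by positivity)

/-- logarithms -/
theorem rlp_log (y K K' : ℝ) (T n r dq q B a : ℕ) (hy : 10 ^ 10 ≤ y) (hq1 : 1 ≤ q)
    (hq : (q : ℝ) ≤ Real.exp y) (hr : r ≤ n) (hB1 : 1 ≤ B) (ha1 : 1 ≤ a)
    (hB : ((r : ℝ) + 1) * B ≤ y ^ 26) (ha : ((r : ℝ) + 1) * a ≤ y ^ (K' + 21)) (hT1 : 1 ≤ T)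
    (hT : K / 8 * Real.log y ≤ Real.log T)
    (h : T ^ dq ≤ 4 * q * ((r + 1) * B) * ((r + 1) * a) ^ r) (hK' : 1 ≤ K')
    (hly : 1 ≤ Real.log y) :
    (dq : ℝ) * (K / 8 * Real.log y) ≤
      2 + y + 26 * Real.log y + n * ((K' + 21) * Real.log y) := by
  have hy0 : 0 < y := by linarith
  have hTr : (1 : ℝ) ≤ T := by exact_mod_cast hT1
  have hqr : (1 : ℝ) ≤ q := by exact_mod_cast hq1
  have hBr : (1 : ℝ) ≤ B := by exact_mod_cast hB1
  have har : (1 : ℝ) ≤ a := by exact_mod_cast ha1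
  have hr0 : (0 : ℝ) ≤ r := Nat.cast_nonneg r
  have h1 : (T : ℝ) ^ dq ≤ 4 * q * (((r : ℝ) + 1) * B) * (((r : ℝ) + 1) * a) ^ r := by
    exact_mod_cast h
  have hp1 : 0 < ((r : ℝ) + 1) * B := by positivity
  have hp2 : 0 < ((r : ℝ) + 1) * a := by positivity
  have h2 : (dq : ℝ) * Real.log T ≤ Real.log 4 + Real.log q + Real.log (((r : ℝ) + 1) * B) +
      r * Real.log (((r : ℝ) + 1) * a) := by
    have h3 := Real.log_le_log (by positivity) h1
    rw [Real.log_pow, Real.log_mul (by positivity) (by positivity),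
      Real.log_mul (by positivity) (by positivity), Real.log_mul (by norm_num) (by positivity),
      Real.log_pow] at h3
    exact h3
  have h4 : Real.log 4 ≤ 2 := by
    have h5 : (4 : ℝ) = 2 ^ 2 := by norm_num
    rw [h5, Real.log_pow]
    have := Real.log_two_lt_d9
    push_cast
    linarith
  have h5 : Real.log q ≤ y := by
    have := Real.log_le_log (by linarith) hq
    rwa [Real.log_exp] at this
  have h6 : Real.log (((r : ℝ) + 1) * B) ≤ 26 * Real.log y := by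
    have := Real.log_le_log hp1 hB
    rw [Real.log_pow] at this
    exact_mod_cast this
  have h7 : Real.log (((r : ℝ) + 1) * a) ≤ (K' + 21) * Real.log y := by
    have := Real.log_le_log hp2 ha
    rwa [Real.log_rpow hy0] at this
  have h8 : (r : ℝ) * Real.log (((r : ℝ) + 1) * a) ≤ n * ((K' + 21) * Real.log y) := by
    have h9 : (r : ℝ) ≤ n := by exact_mod_cast hr
    have h10 : 0 ≤ (K' + 21) * Real.log y := mul_nonneg (by linarith) (by linarith)
    calc (r : ℝ) * Real.log (((r : ℝ) + 1) * a) ≤ r * ((K' + 21) * Real.log y) :=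
          mul_le_mul_of_nonneg_left h7 hr0
      _ ≤ n * ((K' + 21) * Real.log y) := mul_le_mul_of_nonneg_right h9 h10
  have h11 : (dq : ℝ) * (K / 8 * Real.log y) ≤ dq * Real.log T :=
    mul_le_mul_of_nonneg_left hT (Nat.cast_nonneg _)
  linarith

/-- the final inequality -/
theorem rlp_end (y K K' H : ℝ) (n dq : ℕ) (hy : 10 ^ 10 ≤ y) (hly : 1 ≤ Real.log y)
    (hH : 0 < H) (hK : 300 ≤ K) (hK2 : 32 * H * (K' + 21) ≤ K)
    (h : (dq : ℝ) * (K / 8 * Real.log y) ≤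
      2 + y + 26 * Real.log y + n * ((K' + 21) * Real.log y)) :
    (dq : ℝ) ≤ n / (4 * H) + y := by
  obtain ⟨l, hl⟩ : ∃ l, l = Real.log y := ⟨_, rfl⟩
  rw [← hl] at h hly
  have hKl : 0 < K / 8 * l := by positivity
  refine le_of_mul_le_mul_right (h.trans ?_) hKl
  have hn : (0 : ℝ) ≤ n := Nat.cast_nonneg n
  have e1 : (n : ℝ) * ((K' + 21) * l) ≤ n / (4 * H) * (K / 8 * l) := by
    have e2 : (n : ℝ) / (4 * H) * (K / 8 * l) = n * l * (K / (32 * H)) := by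
      field_simp
      ring
    have e3 : K' + 21 ≤ K / (32 * H) := by
      rw [le_div_iff₀ (by positivity)]
      linarith
    rw [e2]
    calc (n : ℝ) * ((K' + 21) * l) = n * l * (K' + 21) := by ring
      _ ≤ n * l * (K / (32 * H)) := mul_le_mul_of_nonneg_left e3 (by positivity)
  have e4 : 2 + y + 26 * l ≤ y * (K / 8 * l) := by
    have e5 : 37 * l ≤ K / 8 * l := mul_le_mul_of_nonneg_right (by linarith) (by linarith)
    have e6 : y * (37 * l) ≤ y * (K / 8 * l) := mul_le_mul_of_nonneg_left e5 (by linarith)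
    have e7 : y ≤ y * l := le_mul_of_one_le_right (by linarith) hly
    have e8 : l ≤ y * l := le_mul_of_one_le_left (by linarith) (by linarith)
    linarith
  rw [add_mul]
  linarith

/-- the real inequalities -/
theorem rlp_real (y K K' : ℝ) (L P T m S A B a : ℕ) (hy : 10 ^ 10 ≤ y) (hK' : 1 ≤ K')
    (hK : 2 * K' + 300 ≤ K) (hL : (L : ℝ) ≤ 2 * y) (hP : (P : ℝ) ≤ 2 * y ^ K')
    (hT : (T : ℝ) ≤ y ^ (K / 4)) (hm : (m : ℝ) ≤ 2 * y ^ 5) (hS : S = 127 * L ^ 10)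
    (ha : a = 64 * (P * m ^ 3)) (hA : A = a * T) (hB : B = 112 * (S * m ^ 2)) :
    ((3 + 2 * (A * B) + 2 * S : ℕ) : ℝ) ≤ y ^ K ∧ (m : ℝ) * B ≤ y ^ 26 ∧
      (m : ℝ) * a ≤ y ^ (K' + 21) := by
  have hy0 : 0 < y := by linarith
  have hy1 : 1 ≤ y := by linarith
  obtain ⟨V, hV⟩ : ∃ V, V = y ^ K' := ⟨_, rfl⟩
  obtain ⟨U, hU⟩ : ∃ U, U = y ^ (K / 4) := ⟨_, rfl⟩
  have hV1 : 1 ≤ V := hV ▸ Real.one_le_rpow hy1 (by linarith)
  have hU1 : 1 ≤ U := hU ▸ Real.one_le_rpow hy1 (by linarith)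
  rw [← hV] at hP
  rw [← hU] at hT
  have hL0 : (0 : ℝ) ≤ L := Nat.cast_nonneg _
  have hP0 : (0 : ℝ) ≤ P := Nat.cast_nonneg _
  have hT0 : (0 : ℝ) ≤ T := Nat.cast_nonneg _
  have hm0 : (0 : ℝ) ≤ m := Nat.cast_nonneg _
  have hSr : (S : ℝ) ≤ 130048 * y ^ 10 := by
    rw [hS]
    push_cast
    calc 127 * (L : ℝ) ^ 10 ≤ 127 * (2 * y) ^ 10 :=
          mul_le_mul_of_nonneg_left (pow_le_pow_left₀ hL0 hL 10) (by norm_num)
      _ = 130048 * y ^ 10 := by ring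
  have hS0 : (0 : ℝ) ≤ S := Nat.cast_nonneg _
  have har : (a : ℝ) ≤ 1024 * (V * y ^ 15) := by
    rw [ha]
    push_cast
    calc 64 * ((P : ℝ) * (m : ℝ) ^ 3) ≤ 64 * ((2 * V) * (2 * y ^ 5) ^ 3) := by
          refine mul_le_mul_of_nonneg_left ?_ (by norm_num)
          exact mul_le_mul hP (pow_le_pow_left₀ hm0 hm 3) (by positivity) (by positivity)
      _ = 1024 * (V * y ^ 15) := by ring
  have ha0 : (0 : ℝ) ≤ a := Nat.cast_nonneg _
  have hBr : (B : ℝ) ≤ 58261504 * y ^ 20 := by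
    rw [hB]
    push_cast
    calc 112 * ((S : ℝ) * (m : ℝ) ^ 2) ≤ 112 * ((130048 * y ^ 10) * (2 * y ^ 5) ^ 2) := by
          refine mul_le_mul_of_nonneg_left ?_ (by norm_num)
          exact mul_le_mul hSr (pow_le_pow_left₀ hm0 hm 2) (by positivity) (by positivity)
      _ = 58261504 * y ^ 20 := by ring
  have hB0 : (0 : ℝ) ≤ B := Nat.cast_nonneg _
  have hAr : (A : ℝ) ≤ 1024 * (V * y ^ 15) * U := by
    rw [hA]
    push_cast
    exact mul_le_mul har hT hT0 (by positivity)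
  have hA0 : (0 : ℝ) ≤ A := Nat.cast_nonneg _
  refine ⟨?_, ?_, ?_⟩
  · have hAB : (A : ℝ) * B ≤ 59659780096 * (V * U * y ^ 35) := by
      calc (A : ℝ) * B ≤ (1024 * (V * y ^ 15) * U) * (58261504 * y ^ 20) :=
            mul_le_mul hAr hBr hB0 (by positivity)
        _ = 59659780096 * (V * U * y ^ 35) := by ring
    have hVU : 1 ≤ V * U := one_le_mul_of_one_le_of_one_le hV1 hU1
    obtain ⟨G, hG⟩ : ∃ G, G = V * U * y ^ 35 := ⟨_, rfl⟩
    rw [← hG] at hAB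
    have hG1 : 1 ≤ G := by
      rw [hG]
      exact one_le_mul_of_one_le_of_one_le hVU (one_le_pow₀ hy1)
    have hG2 : y ^ 10 ≤ G := by
      rw [hG]
      calc y ^ 10 = 1 * y ^ 10 := (one_mul _).symm
        _ ≤ V * U * y ^ 35 :=
          mul_le_mul hVU (pow_le_pow_right₀ hy1 (by norm_num)) (by positivity) (by positivity)
    have hy2 : (10 : ℝ) ^ 20 ≤ y ^ 2 := by
      calc (10 : ℝ) ^ 20 = (10 ^ 10) ^ 2 := by norm_num
        _ ≤ y ^ 2 := pow_le_pow_left₀ (by norm_num) hy 2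
    have h1 : 3 + 2 * ((A : ℝ) * B) + 2 * S ≤ G * y ^ 2 := by
      calc 3 + 2 * ((A : ℝ) * B) + 2 * S ≤
          3 * G + 2 * (59659780096 * G) + 2 * (130048 * G) := by linarith
        _ = 119319820291 * G := by ring
        _ ≤ (10 : ℝ) ^ 20 * G := mul_le_mul_of_nonneg_right (by norm_num) (by linarith)
        _ ≤ y ^ 2 * G := mul_le_mul_of_nonneg_right hy2 (by linarith)
        _ = G * y ^ 2 := by ring
    have h2 : G * y ^ 2 ≤ y ^ K := by
      have h3 : G * y ^ 2 = y ^ (K' + K / 4 + 37) := by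
        rw [hG, hV, hU, Real.rpow_add hy0, Real.rpow_add hy0]
        have h4 : y ^ (37 : ℝ) = y ^ (37 : ℕ) := by
          rw [← Real.rpow_natCast]
          norm_num
        rw [h4]
        ring
      rw [h3]
      exact Real.rpow_le_rpow_of_exponent_le hy1 (by linarith)
    push_cast
    exact h1.trans h2
  · calc (m : ℝ) * B ≤ (2 * y ^ 5) * (58261504 * y ^ 20) :=
          mul_le_mul hm hBr hB0 (by positivity)
      _ = 116523008 * y ^ 25 := by ring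
      _ ≤ y * y ^ 25 := mul_le_mul_of_nonneg_right (by linarith) (by positivity)
      _ = y ^ 26 := by ring
  · have h3 : y ^ (K' + 21) = V * y ^ 21 := by
      rw [hV, Real.rpow_add hy0]
      have h4 : y ^ (21 : ℝ) = y ^ (21 : ℕ) := by
        rw [← Real.rpow_natCast]
        norm_num
      rw [h4]
    rw [h3]
    calc (m : ℝ) * a ≤ (2 * y ^ 5) * (1024 * (V * y ^ 15)) :=
          mul_le_mul hm har ha0 (by positivity)
      _ = 2048 * (V * y ^ 20) := by ring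
      _ ≤ y * (V * y ^ 20) := mul_le_mul_of_nonneg_right (by linarith) (by positivity)
      _ = V * y ^ 21 := by ring

theorem pf_RLP (hRLM : T_RLM) : T_RLP := by
  intro h K' hK'
  obtain ⟨K, hKd⟩ : ∃ K : ℝ, K = 32 * ((h : ℝ) + 1) * (K' + 21) + 2 * K' + 300 := ⟨_, rfl⟩
  have hh : (0 : ℝ) ≤ h := Nat.cast_nonneg h
  have hKp : 0 ≤ 32 * ((h : ℝ) + 1) * (K' + 21) := by positivity
  have hK300 : 300 ≤ K := by linarith
  obtain ⟨X₀, hX₀2, hX₀⟩ := rlp_ev K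
  refine ⟨K, X₀, by linarith, hX₀2, ?_⟩
  intro X q e Bd J Q hX hqp hqX hQJ hJ hJc hJcard hBd1 hBd he
  obtain ⟨g1, g2, g3⟩ := hX₀ X hX
  have hX0 : 0 < X := by linarith
  obtain ⟨y, hy⟩ : ∃ y, y = Real.log X := ⟨_, rfl⟩
  rw [← hy] at g1 g2 g3 he hJcard hJ ⊢
  have hXe : X = Real.exp y := by rw [hy, Real.exp_log hX0]
  have hy1 : 1 ≤ y := by linarith
  have hy0 : 0 < y := by linarith
  have hqfact : Fact q.Prime := ⟨hqp⟩
  have hq2 : 2 ≤ q := hqp.two_le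
  -- the numbers
  obtain ⟨L, hL⟩ : ∃ L, L = ⌈y⌉₊ := ⟨_, rfl⟩
  have hL1 : y ≤ L := hL ▸ Nat.le_ceil y
  have hL2 : (L : ℝ) ≤ 2 * y := by
    have := Nat.ceil_lt_add_one hy0.le
    rw [← hL] at this
    linarith
  have hLone : 1 ≤ L := by
    have : (1 : ℝ) ≤ L := hy1.trans hL1
    exact_mod_cast this
  have hV1 : 1 ≤ y ^ K' := Real.one_le_rpow hy1 (by linarith)
  obtain ⟨P, hP⟩ : ∃ P, P = ⌈y ^ K'⌉₊ := ⟨_, rfl⟩
  have hP1 : y ^ K' ≤ P := hP ▸ Nat.le_ceil _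
  have hP2 : (P : ℝ) ≤ 2 * y ^ K' := by
    have := Nat.ceil_lt_add_one (show 0 ≤ y ^ K' by linarith)
    rw [← hP] at this
    linarith
  have hPone : 1 ≤ P := by
    have : (1 : ℝ) ≤ P := hV1.trans hP1
    exact_mod_cast this
  obtain ⟨t, ht⟩ : ∃ t, t = ⌊K / 4 * Real.log y⌋₊ := ⟨_, rfl⟩
  have hKly : 0 ≤ K / 4 * Real.log y := by positivity
  have ht1 : (t : ℝ) ≤ K / 4 * Real.log y := ht ▸ Nat.floor_le hKly
  have ht2 : K / 4 * Real.log y < t + 1 := ht ▸ Nat.lt_floor_add_one _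
  obtain ⟨T, hT⟩ : ∃ T, T = 2 ^ t := ⟨_, rfl⟩
  have hT1 : 1 ≤ T := hT ▸ Nat.one_le_two_pow
  have hlogT : Real.log (T : ℝ) = t * Real.log 2 := by
    rw [hT]
    push_cast
    rw [Real.log_pow]
  have hlog2 := Real.log_two_gt_d9
  have hlog2' := Real.log_two_lt_d9
  have hTr : (T : ℝ) ≤ y ^ (K / 4) := by
    rw [← Real.exp_log (show (0 : ℝ) < T by exact_mod_cast hT1), hlogT,
      Real.rpow_def_of_pos hy0]
    refine Real.exp_le_exp.2 ?_
    calc (t : ℝ) * Real.log 2 ≤ t * 1 :=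
          mul_le_mul_of_nonneg_left (by linarith) (Nat.cast_nonneg _)
      _ ≤ Real.log y * (K / 4) := by linarith
  have hTlog : K / 8 * Real.log y ≤ Real.log (T : ℝ) := by
    rw [hlogT]
    have e1 : (K / 4 * Real.log y - 1) * 0.69 ≤ (t : ℝ) * Real.log 2 := by
      have e2 : 0 ≤ K / 4 * Real.log y - 1 := by nlinarith
      exact mul_le_mul (by linarith) (by linarith) (by norm_num) (Nat.cast_nonneg _)
    have e3 : 300 * 1 ≤ K * Real.log y := mul_le_mul hK300 g3 (by norm_num) (by linarith)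
    linarith
  obtain ⟨n, hn⟩ : ∃ n, n = Q.card := ⟨_, rfl⟩
  obtain ⟨j, hj⟩ : ∃ j, j = J.card := ⟨_, rfl⟩
  have hnj : n ≤ j := by
    rw [hn, hj]
    exact Finset.card_le_card hQJ
  obtain ⟨m, hm⟩ : ∃ m, m = n + 1 := ⟨_, rfl⟩
  have hmr : (m : ℝ) ≤ 2 * y ^ 5 := by
    have e1 : (n : ℝ) ≤ y ^ 5 := by
      refine le_trans ?_ hJcard
      rw [← hj]
      exact_mod_cast hnj
    have e2 : 1 ≤ y ^ 5 := one_le_pow₀ hy1
    rw [hm]
    push_cast
    linarith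
  have hjL : j ≤ L ^ 5 := by
    have e1 : (j : ℝ) ≤ (L : ℝ) ^ 5 := by
      rw [hj]
      exact hJcard.trans (pow_le_pow_left₀ hy0.le hL1 5)
    exact_mod_cast e1
  have hL5 : L ^ 5 ≤ L ^ 10 := Nat.pow_le_pow_right hLone (by norm_num)
  have hL1' : L ≤ L ^ 10 := by
    calc L = L ^ 1 := (pow_one L).symm
      _ ≤ L ^ 10 := Nat.pow_le_pow_right hLone (by norm_num)
  have htL : t ≤ L ^ 10 := by
    have e1 : (t : ℝ) ≤ L := by linarith
    have e2 : t ≤ L := by exact_mod_cast e1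
    omega
  obtain ⟨S, hS⟩ : ∃ S, S = 127 * L ^ 10 := ⟨_, rfl⟩
  have hS1 : 1 ≤ S := by
    have : 1 ≤ L ^ 10 := Nat.one_le_pow _ _ hLone
    omega
  obtain ⟨a, ha⟩ : ∃ a, a = 64 * (P * m ^ 3) := ⟨_, rfl⟩
  obtain ⟨A, hA⟩ : ∃ A, A = a * T := ⟨_, rfl⟩
  obtain ⟨B, hB⟩ : ∃ B, B = 112 * (S * m ^ 2) := ⟨_, rfl⟩
  have hm1 : 1 ≤ m := by omega
  have ha1 : 1 ≤ a := by
    rw [ha]
    exact Nat.one_le_iff_ne_zero.2 (by positivity)
  have hA1 : 1 ≤ A := by
    rw [hA]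
    exact Nat.mul_pos ha1 hT1
  have hSm : 1 ≤ S * m ^ 2 := Nat.mul_pos hS1 (Nat.one_le_pow _ _ hm1)
  have hB2 : 2 ≤ B := by omega
  obtain ⟨r1, r2, r3⟩ := rlp_real y K K' L P T m S A B a g1 hK' (by linarith) hL2 hP2 hTr hmr
    hS ha hA hB
  have hekey : 3 + 2 * (A * B) + 2 * S ≤ e := by
    have := r1.trans he
    exact_mod_cast this
  -- powers of two
  obtain ⟨F, hF⟩ : ∃ F, F = j.factorial * Bd ^ j := ⟨_, rfl⟩
  have hBd2 : Bd ≤ 2 ^ (124 * L) := by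
    have e1 : (Bd : ℝ) ≤ ((2 ^ (2 * L) : ℕ) : ℝ) ^ 62 := by
      refine hBd.trans (pow_le_pow_left₀ hX0.le ?_ 62)
      rw [hXe]
      exact (Real.exp_le_exp.2 hL1).trans (exp_nat_le L)
    have e2 : Bd ≤ (2 ^ (2 * L)) ^ 62 := by exact_mod_cast e1
    rw [← pow_mul] at e2
    have e3 : 2 * L * 62 = 124 * L := by ring
    rwa [e3] at e2
  have hFle : F ≤ 2 ^ (125 * L ^ 10) := by
    have e1 : j.factorial ≤ 2 ^ (j * j) := by
      calc j.factorial ≤ j ^ j := Nat.factorial_le_pow j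
        _ ≤ (2 ^ j) ^ j := Nat.pow_le_pow_left Nat.lt_two_pow_self.le j
        _ = 2 ^ (j * j) := by rw [← pow_mul]
    have e2 : Bd ^ j ≤ 2 ^ (124 * L * j) := by
      rw [pow_mul]
      exact Nat.pow_le_pow_left hBd2 j
    calc F ≤ 2 ^ (j * j) * 2 ^ (124 * L * j) := by rw [hF]; exact Nat.mul_le_mul e1 e2
      _ = 2 ^ (j * j + 124 * L * j) := by rw [← pow_add]
      _ ≤ 2 ^ (125 * L ^ 10) := by
          refine Nat.pow_le_pow_right (by norm_num) ?_
          have e3 : j * j ≤ L ^ 10 := by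
            calc j * j ≤ L ^ 5 * L ^ 5 := Nat.mul_le_mul hjL hjL
              _ = L ^ 10 := by ring
          have e4 : 124 * L * j ≤ 124 * L ^ 10 := by
            calc 124 * L * j ≤ 124 * L * L ^ 5 := Nat.mul_le_mul_left _ hjL
              _ = 124 * L ^ 6 := by ring
              _ ≤ 124 * L ^ 10 :=
                Nat.mul_le_mul_left _ (Nat.pow_le_pow_right hLone (by norm_num))
          omega
  have hprod : (∏ p ∈ Q, p) ^ T ≤ 2 ^ (2 * P * m * T) := by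
    have e1 : ∏ p ∈ Q, p ≤ (2 ^ (2 * P)) ^ n := by
      rw [hn]
      refine Finset.prod_le_pow_card Q (fun p => p) _ fun u hu => ?_
      obtain ⟨f1, -, f3⟩ := hJ u (hQJ hu)
      refine nat_le_of_exp (x := y ^ K') ?_ hP1
      have hu0 : (0 : ℝ) < u := by
        have : 0 < u := by omega
        exact_mod_cast this
      rw [← Real.exp_log hu0]
      exact Real.exp_le_exp.2 f3
    calc (∏ p ∈ Q, p) ^ T ≤ ((2 ^ (2 * P)) ^ n) ^ T := Nat.pow_le_pow_left e1 T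
      _ = 2 ^ (2 * P * n * T) := by rw [← pow_mul, ← pow_mul, ← mul_assoc (2 * P) n T]
      _ ≤ 2 ^ (2 * P * m * T) := by
          refine Nat.pow_le_pow_right (by norm_num) ?_
          exact Nat.mul_le_mul_right _ (Nat.mul_le_mul_left _ (by omega))
  have hD : (j + 1) * T * F ≤ 2 ^ S := by
    have e1 : j + 1 ≤ 2 ^ j := Nat.lt_two_pow_self
    calc (j + 1) * T * F ≤ 2 ^ j * 2 ^ t * 2 ^ (125 * L ^ 10) := by
          rw [hT]
          exact Nat.mul_le_mul (Nat.mul_le_mul_right _ e1) hFle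
      _ = 2 ^ (j + t + 125 * L ^ 10) := by rw [← pow_add, ← pow_add]
      _ ≤ 2 ^ S := Nat.pow_le_pow_right (by norm_num) (by omega)
  have hq2L : q ≤ 2 ^ (2 * L) := by
    refine nat_le_of_exp (x := y) ?_ hL1
    rw [← hXe]
    exact hqX
  have hkap : ∀ κ : ℕ, q ^ κ ≤ q * F → κ ≤ S := by
    intro κ hκ
    have e1 : 2 ^ κ ≤ 2 ^ (2 * L + 125 * L ^ 10) := by
      calc 2 ^ κ ≤ q ^ κ := Nat.pow_le_pow_left hq2 κ
        _ ≤ q * F := hκ
        _ ≤ 2 ^ (2 * L) * 2 ^ (125 * L ^ 10) := Nat.mul_le_mul hq2L hFle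
        _ = 2 ^ (2 * L + 125 * L ^ 10) := by rw [← pow_add]
    have e2 := (Nat.pow_le_pow_iff_right (by norm_num)).1 e1
    omega
  have hPmT : 2 * P * m * T < A * B := by
    have e1 : P * m * T ≤ P * m ^ 3 * T := by
      refine Nat.mul_le_mul_right _ (Nat.mul_le_mul_left _ ?_)
      calc m = m ^ 1 := (pow_one m).symm
        _ ≤ m ^ 3 := Nat.pow_le_pow_right hm1 (by norm_num)
    have e2 : A = 64 * (P * m ^ 3 * T) := by rw [hA, ha]; ring
    have e3 : A * 2 ≤ A * B := Nat.mul_le_mul_left _ hB2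
    have e4 : 2 * P * m * T = 2 * (P * m * T) := by ring
    omega
  rw [← hj] at hJcard
  have hmain := hRLM q e Bd T A B J Q hQJ hT1 hBd1 hA1 hB2
    (fun u hu => ⟨(hJ u hu).1, (hJ u hu).2.1⟩) hJc
  rw [← hj, ← hF, ← hn] at hmain
  obtain ⟨r, hr1, hr2⟩ := hmain
    (fun κ hκ => by
      have e1 := hkap κ hκ
      refine ⟨by omega, ?_⟩
      calc (∏ p ∈ Q, p) ^ T ≤ 2 ^ (2 * P * m * T) := hprod
        _ < 2 ^ (e - 3 - κ) := Nat.pow_lt_pow_right (by norm_num) (by omega)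
        _ ≤ q ^ (e - 3 - κ) := Nat.pow_le_pow_left hq2 _)
    (fun u hu1 hu2 => rlp_nc q A B _ _ u m S P T hq2 (by rw [hA, ha]; ring) hB hD hprod hu1
      (by omega) hPone hS1 hT1)
  have hrn : r ≤ n := by omega
  have hrm : (r : ℝ) + 1 ≤ m := by
    have : r + 1 ≤ m := by omega
    exact_mod_cast this
  rw [hA] at hr2
  have hc := rlp_cancel T n r (DQ q e Bd J Q) q B a hT1 hr1 hr2
  have hlog := rlp_log y K K' T n r (DQ q e Bd J Q) q B a g1 (by omega) (by rw [← hXe]; exact hqX)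
    hrn (by omega) ha1
    ((mul_le_mul_of_nonneg_right hrm (Nat.cast_nonneg _)).trans r2)
    ((mul_le_mul_of_nonneg_right hrm (Nat.cast_nonneg _)).trans r3) hT1 hTlog hc hK' g3
  have hend := rlp_end y K K' ((h : ℝ) + 1) n (DQ q e Bd J Q) g1 g3 (by positivity) hK300
    (by linarith) hlog
  rw [← hn]
  exact hend

end Pool.Agent.H11.AG
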